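import Pool.Agent.Lib.MP_144d21_co.PSI.Iface

/-!
# DROP: the dimension of the relation space drops by one
-/

set_option autoImplicit false

namespace Pool.Agent.Xu.H89

open Finset

theorem drop : DropS := by
  intro F _ K V _ _ w Z u D0 D1 D2 h01 h02 h12 hinc hD0 hD1
  have hz : ∀ x ∈ Rel w Z, x D1 = 0 → x D2 = 0 := by
    intro x hx h1
    have h2 := hx.2 u
    have h3 : ∑ D, x D * w D u = x D2 * w D2 u := by
      refine sum_eq_single D2 (fun D _ hD => ?_) (fun h => absurd (mem_univ _) h)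
      by_cases hw : w D u = 0
      · rw [hw, mul_zero]
      · rcases (hinc D).1 (mem_inc.2 hw) with rfl | rfl | rfl
        · rw [hD0 x hx, zero_mul]
        · rw [h1, zero_mul]
        · exact absurd rfl hD
    rw [h3] at h2
    have h4 : w D2 u ≠ 0 := mem_inc.1 ((hinc D2).2 (Or.inr (Or.inr rfl)))
    exact (mul_eq_zero.1 h2).resolve_right h4
  let φ : Rel w Z →ₗ[F] F := (LinearMap.proj D1 : (K → F) →ₗ[F] F).comp (Rel w Z).subtype
  have hφ : ∀ x : Rel w Z, φ x = (x : K → F) D1 := fun x => rfl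
  have hsurj : LinearMap.range φ = ⊤ := by
    obtain ⟨x, hx, hx1⟩ := hD1
    rw [LinearMap.range_eq_top]
    intro c
    refine ⟨(c / x D1) • ⟨x, hx⟩, ?_⟩
    rw [map_smul, hφ, smul_eq_mul]
    exact div_mul_cancel₀ c hx1
  have hmap : Rel w (insert D1 (insert D2 Z)) = (LinearMap.ker φ).map (Rel w Z).subtype := by
    ext x
    constructor
    · intro hx
      have hxZ : x ∈ Rel w Z :=
        ⟨fun D hD => hx.1 D (mem_insert_of_mem (mem_insert_of_mem hD)), hx.2⟩
      refine ⟨⟨x, hxZ⟩, ?_, rfl⟩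
      exact hx.1 D1 (mem_insert_self _ _)
    · rintro ⟨⟨y, hy⟩, hk, rfl⟩
      have hk1 : y D1 = 0 := hk
      refine ⟨fun D hD => ?_, hy.2⟩
      rcases mem_insert.1 hD with rfl | hD
      · exact hk1
      rcases mem_insert.1 hD with rfl | hD
      · exact hz y hy hk1
      · exact hy.1 D hD
  have h5 := LinearMap.finrank_range_add_finrank_ker φ
  rw [hsurj, finrank_top, Module.finrank_self] at h5
  rw [hmap, Submodule.finrank_map_subtype_eq]
  omega

end Pool.Agent.Xu.H89
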